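import Pool.Agent.Run7.h759.UD.Defs

/-!
# Abelian extensions: definitions
-/

set_option autoImplicit false

namespace Pool.Agent.Run7.h759.UD

/-- The degree of `N k / k` is prime to `p`. -/
def PrimeTo (p : ℕ) (k N : Fld) : Prop := ∀ d : ℕ, deg (join N k) = d * deg k → ¬ p ∣ d

/-- `ℓ ≠ p` is prime, `k ⊆ M ⊆ N` are number fields, `N / k` is abelian of degree prime to `p`, `N` is in the class `Q`,
and `N / M` is a Galois extension of degree `ℓ`, unramified at all places, in which the primes above `m` and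
the primes which ramify in `N / ℚ` split completely. -/
def IsAbStep (p m : ℕ) (k : Fld) (Q : Fld → Prop) (ℓ : ℕ) (M N : Fld) : Prop :=
  ℓ.Prime ∧ ℓ ≠ p ∧ Sub k M ∧ CommuteOn k N ∧ Q N ∧ PrimeTo p k N ∧ SplitStep ℓ m M N

/-- `μ = 0` for the finite abelian extensions of `k` in the class `Q`. -/
def MuNullAb (p : ℕ) (T : ValuationSubring Qb → Gal(Qb/ℚ) → Prop) (k : Fld) (Q : Fld → Prop) :
    Prop :=
  ∀ K : Fld, IsNF K → Sub k K → CommuteOn k K → Q K → MuNull p T K

end Pool.Agent.Run7.h759.UD
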