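import Pool.Agent.Run7.h759.UD.Defs
import Pool.Agent.Run7.h759.UM.Abel
import Pool.Agent.Run7.h947.IW.Split
import Pool.Agent.Run7.h947.IW.Ray

/-!
# Translation of the theorems
-/

set_option autoImplicit false

namespace Pool.Agent.Run7.h759.UD

open Subgroup Pool.Agent.Q60.MU Pool.Agent.W5h77.MB Pool.Agent.Run7.h759.UM IntermediateField
open scoped commutatorElement Pointwise ComplexConjugate

theorem fixes_iff {σ : Gal(Qb/ℚ)} {N : Fld} : Fixes σ N ↔ σ ∈ N.fixingSubgroup :=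
  (IntermediateField.mem_fixingSubgroup_iff _ _).symm

theorem fixes_bot (σ : Gal(Qb/ℚ)) : Fixes σ ⊥ := by
  intro x hx
  obtain ⟨q, rfl⟩ := IntermediateField.mem_bot.1 hx
  exact σ.commutes q

theorem galOver_iff {a N : Fld} : GalOver a N ↔ StableOver a N :=
  ⟨fun h σ hσ => h σ (fixes_iff.2 hσ), fun h σ hσ => h σ (fixes_iff.1 hσ)⟩

theorem commuteOn_iff {M E : Fld} : CommuteOn M E ↔ AbelianOver M E :=
  ⟨fun h σ hσ τ hτ => h σ τ (fixes_iff.2 hσ) (fixes_iff.2 hτ),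
    fun h σ τ hσ hτ => h σ (fixes_iff.1 hσ) τ (fixes_iff.1 hτ)⟩

/-- The property `T` describes the groups `I`. -/
def Describes (T : ValuationSubring Qb → Gal(Qb/ℚ) → Prop)
    (I : ValuationSubring Qb → Subgroup Gal(Qb/ℚ)) : Prop :=
  ∀ A σ, σ ∈ I A ↔ T A σ ∨ σ = 1

theorem trivialOn_iff {T : ValuationSubring Qb → Gal(Qb/ℚ) → Prop}
    {I : ValuationSubring Qb → Subgroup Gal(Qb/ℚ)} (h : Describes T I) {M E : Fld} :
    TrivialOn T M E ↔ ∀ w, ∀ σ ∈ I w, σ ∈ M.fixingSubgroup → ∀ x ∈ E, σ x = x := by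
  constructor
  · intro h1 w σ hσ hσM
    rcases (h w σ).1 hσ with h2 | rfl
    · exact h1 w σ h2 (fixes_iff.2 hσM)
    · intro x _
      rfl
  · intro h1 A σ hσ hσM
    exact h1 A σ ((h A σ).2 (Or.inl hσ)) (fixes_iff.1 hσM)

theorem absPart_iff {T : ValuationSubring Qb → Gal(Qb/ℚ) → Prop}
    {I : ValuationSubring Qb → Subgroup Gal(Qb/ℚ)} (h : Describes T I) {p : ℕ} {M : Fld} {C : ℕ} :
    AbsPart p T M C ↔ DegI p I M C := by
  constructor
  · intro h1 E hE hEd h2 h3 h4 h5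
    exact h1 E hE hEd (galOver_iff.2 h2) (commuteOn_iff.2 h3)
      (fun σ hσ => h4 σ (fixes_iff.1 hσ)) ((trivialOn_iff h).2 h5)
  · intro h1 E hE hEd h2 h3 h4 h5
    exact h1 E hE hEd (galOver_iff.1 h2) (commuteOn_iff.1 h3)
      (fun σ hσ => h4 σ (fixes_iff.2 hσ)) ((trivialOn_iff h).1 h5)

theorem relPart_iff {T : ValuationSubring Qb → Gal(Qb/ℚ) → Prop}
    {I : ValuationSubring Qb → Subgroup Gal(Qb/ℚ)} (h : Describes T I) {p : ℕ} {M N : Fld}
    {C : ℕ} : RelPart p T M N C ↔ RelDeg p I M N C := by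
  constructor
  · intro h1 E hE hEd h2 h3 h4 h5 h6
    exact h1 E hE hEd (galOver_iff.2 h2) (commuteOn_iff.2 h3)
      (fun σ hσ => h4 σ (fixes_iff.1 hσ)) ((trivialOn_iff h).2 h5)
      (fun σ hσ h7 => h6 σ (fixes_iff.1 hσ) (fun τ hτ => h7 τ (fixes_iff.2 hτ)))
  · intro h1 E hE hEd h2 h3 h4 h5 h6
    exact h1 E hE hEd (galOver_iff.1 h2) (commuteOn_iff.1 h3)
      (fun σ hσ => h4 σ (fixes_iff.2 hσ)) ((trivialOn_iff h).1 h5)
      (fun σ hσ h7 => h6 σ (fixes_iff.2 hσ) (fun τ hτ => h7 τ (fixes_iff.1 hτ)))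

theorem muNull_iff {T : ValuationSubring Qb → Gal(Qb/ℚ) → Prop}
    {I : ValuationSubring Qb → Subgroup Gal(Qb/ℚ)} (h : Describes T I) {p : ℕ} {F : Fld} :
    MuNull p T F ↔ MuI p I F :=
  ⟨fun ⟨C, hC⟩ => ⟨C, fun n R hR => (absPart_iff h).1 (hC n R hR)⟩,
    fun ⟨C, hC⟩ => ⟨C, fun n R hR => (absPart_iff h).2 (hC n R hR)⟩⟩

theorem relMuNull_iff {T : ValuationSubring Qb → Gal(Qb/ℚ) → Prop}
    {I : ValuationSubring Qb → Subgroup Gal(Qb/ℚ)} (h : Describes T I) {p : ℕ} {M N : Fld} :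
    RelMuNull p T M N ↔ RelI p I M N :=
  ⟨fun ⟨C, hC⟩ => ⟨C, fun n R hR => (relPart_iff h).1 (hC n R hR)⟩,
    fun ⟨C, hC⟩ => ⟨C, fun n R hR => (relPart_iff h).2 (hC n R hR)⟩⟩

theorem inert_iff (A : ValuationSubring Qb) (σ : Gal(Qb/ℚ)) :
    σ ∈ inertia A ↔ Inert A σ ∨ σ = 1 := by
  constructor
  · intro h
    exact Or.inl h
  · rintro (h | rfl)
    · exact h
    · exact one_mem _

theorem describes_inert : Describes Inert inertia := inert_iff

theorem splitStep_iff {ℓ m : ℕ} {M N : Fld} : SplitStep ℓ m M N ↔ UnrStep ℓ m M N := by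
  constructor
  · rintro ⟨h1, h2, h3, h4, h5, h6, h7⟩
    refine ⟨h1, h2, h3, galOver_iff.1 h4, (trivialOn_iff describes_inert).1 h5, ?_, ?_⟩
    · intro A hA σ hσ hσM
      refine h6 A ?_ σ hσ (fixes_iff.2 hσM)
      rcases hA with hA | ⟨τ, hτ, x, hx, hne⟩
      · exact Or.inl hA
      · exact Or.inr ⟨τ, hτ, fun h => hne (h x hx)⟩
    · intro ι c hc hcM
      exact h7 ι c hc (fixes_iff.2 hcM)
  · rintro ⟨h1, h2, h3, h4, h5, h6, h7⟩
    refine ⟨h1, h2, h3, galOver_iff.2 h4, (trivialOn_iff describes_inert).2 h5, ?_, ?_⟩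
    · intro A hA σ hσ hσM
      refine h6 A ?_ σ hσ (fixes_iff.1 hσM)
      rcases hA with hA | ⟨τ, hτ, hne⟩
      · exact Or.inl hA
      · unfold Fixes at hne
        push Not at hne
        obtain ⟨x, hx, hne⟩ := hne
        exact Or.inr ⟨τ, hτ, x, hx, hne⟩
    · intro ι c hc hcM
      exact h7 ι c hc (fixes_iff.1 hcM)

theorem oneSmall_iff {T : ValuationSubring Qb → Gal(Qb/ℚ) → Prop}
    {I : ValuationSubring Qb → Subgroup Gal(Qb/ℚ)} (h : Describes T I) {p ℓ : ℕ} {M N : Fld} :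
    OneSmall p T ℓ M N ↔ OneLayer p I ℓ M N := by
  constructor
  · rintro ⟨n₀, n, q₀, q, f, C, R₀, R, h1, h2, h3, h4, h5, h6, h7, h8, h9⟩
    exact ⟨n₀, n, q₀, q, f, C, R₀, R, h1, h2, h3, h4, h5, h6, h7, (relPart_iff h).1 h8, h9⟩
  · rintro ⟨n₀, n, q₀, q, f, C, R₀, R, h1, h2, h3, h4, h5, h6, h7, h8, h9⟩
    exact ⟨n₀, n, q₀, q, f, C, R₀, R, h1, h2, h3, h4, h5, h6, h7, (relPart_iff h).2 h8, h9⟩

theorem oneSmall0_iff {T : ValuationSubring Qb → Gal(Qb/ℚ) → Prop}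
    {I : ValuationSubring Qb → Subgroup Gal(Qb/ℚ)} (h : Describes T I) {p ℓ : ℕ} {M N : Fld} :
    OneSmall0 p T ℓ M N ↔ OneLayer0 p I ℓ M N := by
  constructor
  · rintro ⟨n, q, f, C, R, h1, h2, h3, h4, h5⟩
    exact ⟨n, q, f, C, R, h1, h2, h3, (relPart_iff h).1 h4, h5⟩
  · rintro ⟨n, q, f, C, R, h1, h2, h3, h4, h5⟩
    exact ⟨n, q, f, C, R, h1, h2, h3, (relPart_iff h).2 h4, h5⟩

theorem small_iff {T : ValuationSubring Qb → Gal(Qb/ℚ) → Prop}
    {I : ValuationSubring Qb → Subgroup Gal(Qb/ℚ)} (h : Describes T I) {p ℓ : ℕ} {M N : Fld} :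
    SmallPart p T ℓ M N ↔ SmallLayer p I ℓ M N := by
  constructor
  · rintro ⟨n, f, C, R, h1, h2, h3, h4⟩
    exact ⟨n, f, C, R, h1, h2, (relPart_iff h).1 h3, h4⟩
  · rintro ⟨n, f, C, R, h1, h2, h3, h4⟩
    exact ⟨n, f, C, R, h1, h2, (relPart_iff h).2 h3, h4⟩

theorem closed_of {p : ℕ} {Q : Fld → Prop} (h : Closed p Q) : ClosedClass p Q := by
  refine ⟨h.1, fun N A h1 h2 h3 h4 h5 => h.2 N A h1 ⟨h2, h3, ?_, ?_⟩⟩
  · intro σ τ _ _
    exact h4 σ τ
  · intro ι c hc _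
    exact h5 ι c hc

section

variable (p : ℕ) [hp : Fact p.Prime] (hp2 : p ≠ 2)
  {T : ValuationSubring Qb → Gal(Qb/ℚ) → Prop}
  {I : ValuationSubring Qb → Subgroup Gal(Qb/ℚ)} (hT : Describes T I)
  (hI : ∀ (g : Gal(Qb/ℚ)) (w : ValuationSubring Qb), ∀ x ∈ I w, g * x * g⁻¹ ∈ I (g • w))
  (hI2 : ∀ A : ValuationSubring Qb, (p : Qb) ∉ A.nonunits → I A ≤ inertia A)
  {m : ℕ} (hm : m ≠ 0)

include hp2 hT hI hI2 hm

theorem class_rel {a k : Fld} {Q : Fld → Prop} (h : IsClass p a k Q) :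
    MuNullOn p T a k Q ↔
      MuNull p T k ∧ ∀ ℓ M N, IsStep p m a k Q ℓ M N → RelMuNull p T M N := by
  obtain ⟨hak, hk, hka, hQk, hQ⟩ := h
  have h1 := cls_rel p hp2 hI hI2 hak hk (galOver_iff.1 hka) hQk (closed_of hQ) hm
  constructor
  · intro h
    obtain ⟨h2, h3⟩ := h1.1 (fun N hN hkN hNs hQN => (muNull_iff hT).1
      (h N hN hkN (galOver_iff.2 hNs) hQN))
    refine ⟨(muNull_iff hT).2 h2, ?_⟩
    rintro ℓ M N ⟨hℓ, hℓp, hkM, hN, hQN, hu⟩
    exact (relMuNull_iff hT).2 (h3 ℓ M N hℓ hℓp hkM (galOver_iff.1 hN) hQN (splitStep_iff.1 hu))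
  · rintro ⟨h2, h3⟩ N hN hkN hNs hQN
    exact (muNull_iff hT).2 (h1.2 ⟨(muNull_iff hT).1 h2, fun ℓ M N hℓ hℓp hkM hN hQN hu =>
      (relMuNull_iff hT).1 (h3 ℓ M N ⟨hℓ, hℓp, hkM, galOver_iff.2 hN, hQN, splitStep_iff.2 hu⟩)⟩ N
        hN hkN (galOver_iff.1 hNs) hQN)

theorem class_one {a k : Fld} {Q : Fld → Prop} (h : IsClass p a k Q)
    (hI3 : ∀ A : ValuationSubring Qb, (p : Qb) ∈ A.nonunits → inertia A ≤ I A) :
    MuNullOn p T a k Q ↔
      MuNull p T k ∧ ∀ ℓ M N, IsStep p m a k Q ℓ M N → OneSmall p T ℓ M N := by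
  obtain ⟨hak, hk, hka, hQk, hQ⟩ := h
  have h1 := cls_one p hp2 hI hI2 hak hk (galOver_iff.1 hka) hQk (closed_of hQ) hm hI3
  constructor
  · intro h
    obtain ⟨h2, h3⟩ := h1.1 (fun N hN hkN hNs hQN => (muNull_iff hT).1
      (h N hN hkN (galOver_iff.2 hNs) hQN))
    refine ⟨(muNull_iff hT).2 h2, ?_⟩
    rintro ℓ M N ⟨hℓ, hℓp, hkM, hN, hQN, hu⟩
    exact (oneSmall_iff hT).2 (h3 ℓ M N hℓ hℓp hkM (galOver_iff.1 hN) hQN (splitStep_iff.1 hu))
  · rintro ⟨h2, h3⟩ N hN hkN hNs hQN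
    exact (muNull_iff hT).2 (h1.2 ⟨(muNull_iff hT).1 h2, fun ℓ M N hℓ hℓp hkM hN hQN hu =>
      (oneSmall_iff hT).1 (h3 ℓ M N ⟨hℓ, hℓp, hkM, galOver_iff.2 hN, hQN, splitStep_iff.2 hu⟩)⟩ N
        hN hkN (galOver_iff.1 hNs) hQN)

theorem class_one0 {a k : Fld} {Q : Fld → Prop} (h : IsClass p a k Q)
    (hI4 : ∀ (n : ℕ) (R : IntermediateField ℚ Qb), IsLayer p n R → ∀ A, I A ≤ R.fixingSubgroup) :
    MuNullOn p T a k Q ↔
      MuNull p T k ∧ ∀ ℓ M N, IsStep p m a k Q ℓ M N → OneSmall0 p T ℓ M N := by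
  obtain ⟨hak, hk, hka, hQk, hQ⟩ := h
  have h1 := cls_one0 p hp2 hI hI2 hak hk (galOver_iff.1 hka) hQk (closed_of hQ) hm hI4
  constructor
  · intro h
    obtain ⟨h2, h3⟩ := h1.1 (fun N hN hkN hNs hQN => (muNull_iff hT).1
      (h N hN hkN (galOver_iff.2 hNs) hQN))
    refine ⟨(muNull_iff hT).2 h2, ?_⟩
    rintro ℓ M N ⟨hℓ, hℓp, hkM, hN, hQN, hu⟩
    exact (oneSmall0_iff hT).2 (h3 ℓ M N hℓ hℓp hkM (galOver_iff.1 hN) hQN (splitStep_iff.1 hu))
  · rintro ⟨h2, h3⟩ N hN hkN hNs hQN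
    exact (muNull_iff hT).2 (h1.2 ⟨(muNull_iff hT).1 h2, fun ℓ M N hℓ hℓp hkM hN hQN hu =>
      (oneSmall0_iff hT).1 (h3 ℓ M N ⟨hℓ, hℓp, hkM, galOver_iff.2 hN, hQN, splitStep_iff.2 hu⟩)⟩ N
        hN hkN (galOver_iff.1 hNs) hQN)

theorem abelian_rel {k : Fld} (hk : IsNF k) (hpk : ¬ p ∣ deg k) :
    MuNullAbelian p T k ↔
      MuNull p T k ∧ ∀ ℓ M N, IsAbelianStep p m k ℓ M N → RelMuNull p T M N := by
  have hself : MuNullAbelian p T k → MuNull p T k := by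
    intro h
    refine h k hk (le_refl k) fun σ τ hσ hτ x hx => ?_
    rw [hτ x hx, hσ x hx, hτ x hx]
  constructor
  · intro h
    refine ⟨hself h, ?_⟩
    rintro ℓ M N ⟨hℓ, hℓp, hkM, hN, hpN, hu⟩
    exact (relMuNull_iff hT).2 ((abel_rel p hp2 hI hI2 hk hpk hm ((muNull_iff hT).1 (hself h))).1
      (fun K hK hkK hab => (muNull_iff hT).1 (h K hK hkK (commuteOn_iff.2 hab))) ℓ M N
      ⟨hℓ, hℓp, hkM, commuteOn_iff.1 hN, hpN, splitStep_iff.1 hu⟩)
  · rintro ⟨h2, h3⟩ K hK hkK hab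
    refine (muNull_iff hT).2 ((abel_rel p hp2 hI hI2 hk hpk hm ((muNull_iff hT).1 h2)).2 ?_ K hK hkK
      (commuteOn_iff.1 hab))
    rintro ℓ M N ⟨hℓ, hℓp, hkM, hN, hpN, hu⟩
    exact (relMuNull_iff hT).1 (h3 ℓ M N ⟨hℓ, hℓp, hkM, commuteOn_iff.2 hN, hpN,
      splitStep_iff.2 hu⟩)

theorem abelian_small {k : Fld} (hk : IsNF k) (hkg : IsGalois ℚ k) (hpk : ¬ p ∣ deg k)
    (hI3 : ∀ A : ValuationSubring Qb, (p : Qb) ∈ A.nonunits → inertia A ≤ I A) :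
    MuNullAbelian p T k ↔
      MuNull p T k ∧ ∀ ℓ M N, IsAbelianStep p m k ℓ M N → SmallPart p T ℓ M N := by
  have hself : MuNullAbelian p T k → MuNull p T k := by
    intro h
    refine h k hk (le_refl k) fun σ τ hσ hτ x hx => ?_
    rw [hτ x hx, hσ x hx, hτ x hx]
  constructor
  · intro h
    refine ⟨hself h, ?_⟩
    rintro ℓ M N ⟨hℓ, hℓp, hkM, hN, hpN, hu⟩
    exact (small_iff hT).2 ((abel_small p hp2 hI hI2 hk hpk hm ((muNull_iff hT).1 (hself h)) hkg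
      hI3).1 (fun K hK hkK hab => (muNull_iff hT).1 (h K hK hkK (commuteOn_iff.2 hab))) ℓ M N
      ⟨hℓ, hℓp, hkM, commuteOn_iff.1 hN, hpN, splitStep_iff.1 hu⟩)
  · rintro ⟨h2, h3⟩ K hK hkK hab
    refine (muNull_iff hT).2 ((abel_small p hp2 hI hI2 hk hpk hm ((muNull_iff hT).1 h2) hkg hI3).2
      ?_ K hK hkK (commuteOn_iff.1 hab))
    rintro ℓ M N ⟨hℓ, hℓp, hkM, hN, hpN, hu⟩
    exact (small_iff hT).1 (h3 ℓ M N ⟨hℓ, hℓp, hkM, commuteOn_iff.2 hN, hpN,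
      splitStep_iff.2 hu⟩)

omit hp2 hI hI2 hm in
/-- All number fields. -/
theorem all_iff {k : Fld} (hk : IsNF k) :
    (∀ F : Fld, IsNF F → MuNull p T F) ↔ MuNullOn p T ⊥ k (fun _ => True) := by
  constructor
  · intro h N hN _ _ _
    exact h N hN
  · intro h F hF
    obtain ⟨N, hN, hFN, hkN, hNs⟩ := exists_galois F k hF hk
    exact (muNull_iff hT).2 (muI_down t_rel hp.out hN hFN
      ((muNull_iff hT).1 (h N hN hkN (galOver_iff.2 hNs) trivial)))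

end

theorem class_all {p : ℕ} {k : Fld} (hk : IsNF k) (hkg : IsGalois ℚ k) :
    IsClass p ⊥ k (fun _ => True) :=
  ⟨bot_le, hk, galOver_iff.2 (stableOver_bot.2 hkg), trivial, fun _ _ _ _ => trivial,
    fun _ _ _ _ => trivial⟩

open Run7.h947.IW (splitAbove split_conj inertiaOutside outside_conj)

theorem describes_split (p : ℕ) : Describes (SplitAt p) (splitAbove p) := by
  intro A σ
  unfold splitAbove SplitAt
  by_cases hA : (p : Qb) ∈ A.nonunits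
  · rw [if_pos hA, MulAction.mem_stabilizer_iff]
    constructor
    · intro h
      exact Or.inl ⟨h, Or.inl hA⟩
    · rintro (h | rfl)
      · exact h.1
      · exact one_smul _ _
  · rw [if_neg hA, inert_iff]
    constructor
    · rintro (h | h)
      · exact Or.inl ⟨h.1, Or.inr h.2⟩
      · exact Or.inr h
    · rintro (⟨h1, h2 | h2⟩ | h)
      · exact absurd h2 hA
      · exact Or.inl ⟨h1, h2⟩
      · exact Or.inr h

theorem describes_outside (p : ℕ) : Describes (InertOutside p) (inertiaOutside p) := by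
  intro A σ
  unfold inertiaOutside InertOutside
  by_cases hA : (p : Qb) ∈ A.nonunits
  · rw [if_pos hA, Subgroup.mem_bot]
    constructor
    · intro h
      exact Or.inr h
    · rintro (h | h)
      · exact absurd hA h.1
      · exact h
  · rw [if_neg hA, inert_iff]
    constructor
    · rintro (h | h)
      · exact Or.inl ⟨hA, h⟩
      · exact Or.inr h
    · rintro (h | h)
      · exact Or.inl h.2
      · exact Or.inr h

theorem split_le2 (p : ℕ) : ∀ A : ValuationSubring Qb, (p : Qb) ∉ A.nonunits →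
    splitAbove p A ≤ inertia A := by
  intro A hA
  rw [splitAbove, if_neg hA]

theorem split_le3 (p : ℕ) : ∀ A : ValuationSubring Qb, (p : Qb) ∈ A.nonunits →
    inertia A ≤ splitAbove p A := by
  intro A hA σ hσ
  rw [splitAbove, if_pos hA]
  exact hσ.1

theorem split_le5 (p : ℕ) : ∀ A : ValuationSubring Qb, inertia A ≤ splitAbove p A := by
  intro A
  by_cases hA : (p : Qb) ∈ A.nonunits
  · exact split_le3 p A hA
  · rw [splitAbove, if_neg hA]

theorem outside_le2 (p : ℕ) : ∀ A : ValuationSubring Qb, (p : Qb) ∉ A.nonunits →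
    inertiaOutside p A ≤ inertia A := by
  intro A hA
  rw [inertiaOutside, if_neg hA]

theorem outside_le4 {p : ℕ} (hp : p.Prime) : ∀ (n : ℕ) (R : IntermediateField ℚ Qb),
    IsLayer p n R → ∀ A, inertiaOutside p A ≤ R.fixingSubgroup := by
  intro n R hR A
  by_cases hA : (p : Qb) ∈ A.nonunits
  · rw [inertiaOutside, if_pos hA]
    exact bot_le
  · rw [inertiaOutside, if_neg hA]
    exact inertia_le_layer hp hR hA

/-- `μ = 0` for `ℚ`. -/
theorem null_bot (p : ℕ) [Fact p.Prime] : MuNull p Inert ⊥ :=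
  (muNull_iff describes_inert).2 (mu_bot p)

theorem null_bot_split (p : ℕ) [Fact p.Prime] : MuNull p (SplitAt p) ⊥ :=
  (muNull_iff (describes_split p)).2 (muI_mono (split_le5 p) (mu_bot p))

theorem closed_real (p : ℕ) : Closed p TotallyReal := by
  constructor
  · intro N N' hN hle ι c hc hb x hx
    exact hN ι c hc hb x (hle hx)
  · rintro N A hN ⟨-, -, hAc, hAr⟩ ι c hc hb
    rw [fixes_iff]
    show c ∈ (N ⊔ A).fixingSubgroup
    rw [fixingSubgroup_sup]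
    exact ⟨fixes_iff.1 (hN ι c hc hb), fixes_iff.1 (hAr ι c hc hb)⟩

theorem exists_galois_real {F k : Fld} (hF : IsNF F)
    (hk : IsNF k) (hFr : TotallyReal F) (hkr : TotallyReal k) :
    ∃ N : Fld, IsNF N ∧ Sub F N ∧ Sub k N ∧ GalOver ⊥ N ∧ TotallyReal N := by
  have hF' : FiniteDimensional ℚ F := hF
  have hk' : FiniteDimensional ℚ k := hk
  have hU : FiniteDimensional ℚ ↥(F ⊔ k) := inferInstance
  set U := (F ⊔ k).fixingSubgroup with hUdef
  have hUf : U.FiniteIndex := ⟨index_ne_zero' (F ⊔ k)⟩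
  have hKo : IsOpen (U.normalCore : Set Gal(Qb/ℚ)) :=
    isOpen_normalCore (F ⊔ k).fixingSubgroup_isOpen (index_ne_zero' (F ⊔ k))
  have hKf : U.normalCore.index ≠ 0 := by
    have : U.normalCore.FiniteIndex := U.finiteIndex_normalCore
    exact Subgroup.FiniteIndex.index_ne_zero
  have hle : F ⊔ k ≤ fixedField U.normalCore := (le_iff_le _ _).2 (Subgroup.normalCore_le _)
  refine ⟨fixedField U.normalCore, finite_fixed hKo hKf, le_sup_left.trans hle,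
    le_sup_right.trans hle, ?_, ?_⟩
  · exact galOver_iff.2 (stableOver_fixed (A := (⊥ : IntermediateField ℚ Qb).fixingSubgroup) rfl
      (fun s _ x hx => (Subgroup.normalCore_normal U).conj_mem x hx s))
  · intro ι c hc _
    rw [fixes_iff, fix_fixed hKo]
    intro b
    rw [hUdef, fixingSubgroup_sup]
    -- the conjugate of `c` is a complex conjugation
    have h1 : ∀ x, (ι.comp (((b⁻¹ : Gal(Qb/ℚ)) : Qb →ₐ[ℚ] Qb).toRingHom)) ((b * c * b⁻¹) x) =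
        conj ((ι.comp (((b⁻¹ : Gal(Qb/ℚ)) : Qb →ₐ[ℚ] Qb).toRingHom)) x) := by
      intro x
      have h2 : (ι.comp (((b⁻¹ : Gal(Qb/ℚ)) : Qb →ₐ[ℚ] Qb).toRingHom)) ((b * c * b⁻¹) x) =
          ι (c (b⁻¹ x)) := by
        have h3 : b⁻¹ ((b * c * b⁻¹) x) = c (b⁻¹ x) := by
          show (b⁻¹ * (b * c * b⁻¹)) x = (c * b⁻¹) x
          congr 1
          group
        show ι (b⁻¹ ((b * c * b⁻¹) x)) = _
        rw [h3]
      rw [h2, hc]
      rfl
    exact ⟨fixes_iff.1 (hFr _ _ h1 (fixes_bot _)), fixes_iff.1 (hkr _ _ h1 (fixes_bot _))⟩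

/-- All totally real fields. -/
theorem all_real_iff (p : ℕ) [hp : Fact p.Prime] {T : ValuationSubring Qb → Gal(Qb/ℚ) → Prop}
    {I : ValuationSubring Qb → Subgroup Gal(Qb/ℚ)} (hT : Describes T I) {k : Fld} (hk : IsNF k)
    (hkr : TotallyReal k) : (∀ F : Fld, IsNF F → TotallyReal F → MuNull p T F) ↔
      MuNullOn p T ⊥ k TotallyReal := by
  constructor
  · intro h N hN _ _ hNr
    exact h N hN hNr
  · intro h F hF hFr
    obtain ⟨N, hN, hFN, hkN, hNs, hNr⟩ := exists_galois_real hF hk hFr hkr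
    exact (muNull_iff hT).2 (muI_down t_rel hp.out hN hFN
      ((muNull_iff hT).1 (h N hN hkN hNs hNr)))

end Pool.Agent.Run7.h759.UD
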