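import Pool.Agent.Run7.h759.UD.Coef
import Pool.Agent.Run7.h759.UD.Bridge

/-!
# Interface: characters of prime order as coefficients
-/

set_option autoImplicit false

namespace Pool.Agent.Run7.h759.UD

open Pool.Agent.Q60.MU Pool.Agent.W5h77.MB Pool.Agent.Run7.h759.UM
open scoped Pointwise

/-- **U3.** The relative form from coefficients.

PROOF. Write `G_F` for `F.fixingSubgroup` (`fixes_iff : Fixes σ F ↔ σ ∈ F.fixingSubgroup`). `G_N` is a normal subgroup of `G_M` of index `ℓ` (see `UM.step_groups` in `UM/Gen.lean`). If `M = N` there is nothing to do. Let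
`h₀ ∈ G_M`, `h₀ ∉ G_N`. By `UM.prime_gen` (`UM/LayA.lean`) `h₀ ^ ℓ ∈ G_N` and every `σ ∈ G_M` is `h₀ ^ j κ`, `κ ∈ G_N`; `j` is unique modulo `ℓ` (`UM.pow_mem_dvd` in `UM/Fld2.lean`). So there is a map `j : G_M → ZMod ℓ`, `j (σ τ) = j σ + j τ`, with kernel
`G_N`, `j h₀ = 1`. Let `A = {a : ZMod ℓ → ZMod p | ∑ i, a i = 0}` (an additive subgroup), `(ρ σ a) i = a (i + j σ)` for `σ ∈ G_M` (and `ρ σ a = a` for other `σ`). `IsStepCoef p M N A ρ`: the only nontrivial point is that an invariant `a` is constant, so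
`ℓ a = 0` and `a = 0` as `ℓ ≠ p`. Let `C` be the bound for `A`. Let `R` be the `n`-th layer, `E` as in `RelPart` for `join M R`, `join N R`. Let `h = h₀ ^ e` with
`e ≡ 1` modulo `ℓ`, `e ≡ 0` modulo `p ^ (n+1)` (`Nat.chineseRemainder`): `h ∈ G_{MR}` (`UM.layer_index` and `pow_index_mem`), `j h = 1`, `h ^ ℓ ∈ G_E` (`h₀ ^ (ℓ p ^ n) ∈ G_{NR}`, and `p`-th powers of elements of `G_{NR}` are in `G_E` by `ExponentOn`).
`V = G_{NR} / G_E` is commutative of exponent `p`. For a homomorphism `χ : G_{NR} → ZMod p` which is trivial on `G_E` let `F χ v : ZMod ℓ → ZMod p`, `F χ v i = χ (h ^ i v h ^ (-i))` (`i` a representative; `h ^ ℓ ∈ G_E` and `G_E` is normal in `G_{MR}` (`GalOver`), and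
`V` is commutative, so it does not depend on the choice). `∑ i, F χ v i = χ (∏_i h ^ i v h ^ (-i))`, and `u = ∏_(i<ℓ) h ^ i v h ^ (-i)` is modulo `G_E` invariant under conjugation by `h` and by `G_{NR}`, so by `G_{MR} = ⟨h⟩ G_{NR}`, so it is trivial on `E` by `NoCentral`; so
`F χ v ∈ A`. Let `f_χ σ = F χ (σ h ^ (-j σ))` for `σ ∈ G_{MR}` (`j σ` a natural representative) and `f_χ σ = 0` for `σ ∉ G_{MR}`. Crossed homomorphism: `f (v h^i · w h^j) = f (v · h^i w h^(-i) · h^(i+j)) = F χ v + F χ (h^i w h^(-i)) = F χ v + ρ (h^i) (F χ w)`. `cont`: field `E` (`σ ∈ G_E`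
has `j σ = 0`, `F χ σ = 0`). `loc`: if `T w σ` and `σ ∈ G_{MR}` then `σ ∈ G_N` by `hloc`, so `σ ∈ G_{NR}`, so `σ` is trivial on `E` (`TrivialOn T (join N R) E`) and `f σ = 0 = ρ σ 0 - 0`. If `f_χ - f_χ'` is principal, `= ρ σ a - a`, then for `σ ∈ G_{NR}` it is
`0`, so `χ = χ'` (value at `i = 0`) and `f_χ = f_χ'`. So the number `|V|` of the `χ` (compare U2, `S_triv`; `V` is a finite vector space over `ZMod p` and has as many homomorphisms to `ZMod p` as elements) is at most `C`, and `deg E = |V| deg (join N R)`. -/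
def S_step : Prop := ∀ (p : ℕ) [Fact p.Prime] (T : ValuationSubring Qb → Gal(Qb/ℚ) → Prop)
  (ℓ : ℕ) (M N : Fld), ℓ.Prime → ℓ ≠ p → IsNF N → Sub M N → deg N = ℓ * deg M → GalOver M N →
  (∀ w σ, T w σ → Fixes σ M → Fixes σ N) →
  (∀ (A : Type) [AddCommGroup A] (ρ : Gal(Qb/ℚ) → A → A), IsStepCoef p M N A ρ →
    ShaBounded p T M A ρ) → RelMuNull p T M N

end Pool.Agent.Run7.h759.UD
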