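import Pool.Agent.Run7.h759.UD.Bridge
import Pool.Agent.Run7.h759.UD.Ab3

/-!
# Abelian extensions of an arbitrary number field inside a class
-/

set_option autoImplicit false

namespace Pool.Agent.Run7.h759.UD

open Subgroup Pool.Agent.Q60.MU Pool.Agent.W5h77.MB Pool.Agent.Run7.h759.UM IntermediateField
open scoped commutatorElement Pointwise ComplexConjugate

theorem deg_join {k N : Fld} (hk : IsNF k) :
    deg (join N k) = (N.fixingSubgroup ⊓ k.fixingSubgroup).relIndex k.fixingSubgroup * deg k := by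
  have hle : N.fixingSubgroup ⊓ k.fixingSubgroup ≤ k.fixingSubgroup := inf_le_right
  show Module.finrank ℚ ↥(N ⊔ k) = _ * Module.finrank ℚ k
  rw [finrank_eq_fixingSubgroup_index Qb, finrank_eq_fixingSubgroup_index Qb, fixingSubgroup_sup,
    ← relIndex_mul_index hle]

theorem primeTo_iff {p : ℕ} {k N : Fld} (hk : IsNF k) : PrimeTo p k N ↔
    ¬ p ∣ (N.fixingSubgroup ⊓ k.fixingSubgroup).relIndex k.fixingSubgroup := by
  constructor
  · intro h
    exact h _ (deg_join hk)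
  · intro h d hd
    have hk' : FiniteDimensional ℚ k := hk
    have h0 : 0 < deg k := Module.finrank_pos
    have h1 := Nat.eq_of_mul_eq_mul_right h0 (hd.symm.trans (deg_join hk))
    rwa [h1]

/-- The class of the abelian extensions in `Q` of degree prime to `p`. -/
theorem closed_ab {p : ℕ} (hp : p.Prime) {k : Fld} (hk : IsNF k) {Q : Fld → Prop}
    (hQ : Closed p Q) : Closed p (fun N => CommuteOn k N ∧ Q N ∧ PrimeTo p k N) := by
  constructor
  · rintro N N' ⟨h1, h2, h3⟩ hle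
    refine ⟨fun σ τ hσ hτ x hx => h1 σ τ hσ hτ x (hle hx), hQ.1 N N' h2 hle, ?_⟩
    rw [primeTo_iff hk] at h3 ⊢
    intro hdv
    apply h3
    have h4 : N.fixingSubgroup ⊓ k.fixingSubgroup ≤ N'.fixingSubgroup ⊓ k.fixingSubgroup :=
      inf_le_inf_right _ (fixingSubgroup_le hle)
    rw [← relIndex_mul_relIndex _ _ _ h4 inf_le_right]
    exact hdv.mul_left _
  · rintro N A ⟨h1, h2, h3⟩ hA
    obtain ⟨hAd, ⟨ℓ, hℓ, hℓp, hAℓ⟩, hAc, hAr⟩ := id hA
    have hAc' : AbelianOver ⊥ A := commuteOn_iff.1 hAc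
    have hall : ∀ g : Gal(Qb/ℚ), g ∈ (⊥ : IntermediateField ℚ Qb).fixingSubgroup :=
      fun g => fixes_iff.1 (fixes_bot g)
    have hAn : A.fixingSubgroup.Normal := ⟨fun x hx g => by
      have h3 : g * x * g⁻¹ = ⁅g, x⁆ * x := by
        rw [commutatorElement_def]
        group
      rw [h3]
      exact A.fixingSubgroup.mul_mem (abelian_iff.1 hAc' g (hall g) x (hall x)) hx⟩
    refine ⟨?_, hQ.2 N A h2 hA, ?_⟩
    · have h5 : AbelianOver k (N ⊔ A) := by
        rw [commuteOn_iff, abelian_iff] at h1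
        rw [abelian_iff]
        intro σ hσ τ hτ
        rw [fixingSubgroup_sup]
        exact ⟨h1 σ hσ τ hτ, abelian_iff.1 hAc' σ (hall σ) τ (hall τ)⟩
      exact commuteOn_iff.2 h5
    · rw [primeTo_iff hk] at h3 ⊢
      intro hdv
      have h5 : (join N A).fixingSubgroup ⊓ k.fixingSubgroup =
          (N.fixingSubgroup ⊓ k.fixingSubgroup) ⊓ A.fixingSubgroup := by
        show (N ⊔ A).fixingSubgroup ⊓ k.fixingSubgroup = _
        rw [fixingSubgroup_sup, inf_right_comm]
      have hle : (N.fixingSubgroup ⊓ k.fixingSubgroup) ⊓ A.fixingSubgroup ≤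
        N.fixingSubgroup ⊓ k.fixingSubgroup := inf_le_left
      rw [h5, ← relIndex_mul_relIndex _ _ _ hle inf_le_right, inf_relIndex_left,
        hp.dvd_mul] at hdv
      rcases hdv with hdv | hdv
      · have h6 : A.fixingSubgroup.relIndex (N.fixingSubgroup ⊓ k.fixingSubgroup) ∣ ℓ := by
          have h7 : A.fixingSubgroup.index = ℓ := by
            rw [← hAℓ]
            exact (finrank_eq_fixingSubgroup_index Qb A).symm
          rw [← h7]
          exact relIndex_dvd_index_of_normal _ _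
        exact hℓp ((Nat.prime_dvd_prime_iff_eq hp hℓ).1 (hdv.trans h6)).symm
      · exact h3 hdv

section

variable (p : ℕ) [hp : Fact p.Prime] (hp2 : p ≠ 2)
  {T : ValuationSubring Qb → Gal(Qb/ℚ) → Prop}
  {I : ValuationSubring Qb → Subgroup Gal(Qb/ℚ)} (hT : Describes T I)
  (hI : ∀ (g : Gal(Qb/ℚ)) (w : ValuationSubring Qb), ∀ x ∈ I w, g * x * g⁻¹ ∈ I (g • w))
  (hI2 : ∀ A : ValuationSubring Qb, (p : Qb) ∉ A.nonunits → I A ≤ inertia A)
  {m : ℕ} (hm : m ≠ 0) {k : Fld} (hk : IsNF k) {Q : Fld → Prop} (hQ : Closed p Q)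

include hp2 hT hI hI2 hm hk hQ

theorem ab2_core (hmk : MuNull p T k)
    (hst : ∀ (ℓ : ℕ) (M N : Fld), IsAbStep p m k Q ℓ M N → RelL p I M N) :
    MuNullAb p T k Q := by
  intro K hKd hkK hK hQK
  have hstk : StableOver k k := by
    intro σ hσ x hx
    rw [(IntermediateField.mem_fixingSubgroup_iff _ _).1 hσ x hx]
    exact hx
  have hcl := closed_of (closed_ab hp.out hk hQ)
  have core := gen_core Pool.Agent.Run7.h594.UM.P1 Pool.Agent.Run7.h594.UM.P2 t_pext t_findec t_rel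
    p hp2 hI hI2 (le_refl k) hk hstk _ hcl.1 hcl.2 hm ((muNull_iff hT).1 hmk)
    (fun ℓ M N hℓ hℓp hkM hN hQN hu => hst ℓ M N ⟨hℓ, hℓp, hkM, hQN.1, hQN.2.1, hQN.2.2,
      splitStep_iff.2 hu⟩)
  -- the field of degree prime to `p`
  have hKd' : FiniteDimensional ℚ K := hKd
  have hk' : FiniteDimensional ℚ k := hk
  have hle : K.fixingSubgroup ≤ k.fixingSubgroup := fixingSubgroup_le hkK
  have hKi := index_ne_zero' K
  have hki := index_ne_zero' k
  have hrel : K.fixingSubgroup.relIndex k.fixingSubgroup ≠ 0 := by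
    intro h0
    have h1 := relIndex_mul_index hle
    rw [h0, zero_mul] at h1
    exact hKi h1.symm
  have hK' := commuteOn_iff.1 hK
  obtain ⟨L, hKL, hLk, ⟨a, ha⟩, hpL⟩ := exists_sylow hp.out hle (abelian_iff.1 hK') hrel
  have hLo : IsOpen (L : Set Gal(Qb/ℚ)) := Subgroup.isOpen_mono hKL K.fixingSubgroup_isOpen
  have hLi : L.index ≠ 0 := by
    intro h0
    have h1 := relIndex_mul_index hKL
    rw [h0, mul_zero] at h1
    exact hKi h1.symm
  have hfix := fix_fixed hLo
  have hFd := finite_fixed hLo hLi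
  have hFK : fixedField L ≤ K := by
    have h1 := fixedField_antitone hKL
    rwa [InfiniteGalois.fixedField_fixingSubgroup] at h1
  have hkF : k ≤ fixedField L := by
    have h1 := fixedField_antitone hLk
    rwa [InfiniteGalois.fixedField_fixingSubgroup] at h1
  have hFab : CommuteOn k (fixedField L) := fun σ τ hσ hτ x hx => hK σ τ hσ hτ x (hFK hx)
  have hmF : MuI p I (fixedField L) := by
    refine core (fixedField L) hFd hkF (abelian_stable hkF (commuteOn_iff.1 hFab))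
      ⟨hFab, hQ.1 K _ hQK hFK, ?_⟩
    rw [primeTo_iff hk, hfix, inf_eq_left.2 hLk]
    exact hpL
  refine (muNull_iff hT).2 (muI_pext t_pext t_findec t_rel p hp2 hI hI2 hKd hFK ?_ (a := a) ?_ hmF)
  · intro σ hσ x hx
    rw [hfix] at hσ
    exact abelian_stable hkK hK' σ (hLk hσ) x hx
  · rw [hfix, ha]

theorem ab2_rel (hQk : Q k) : MuNullAb p T k Q ↔
    MuNull p T k ∧ ∀ ℓ M N, IsAbStep p m k Q ℓ M N → RelMuNull p T M N := by
  constructor
  · intro h
    have hself : MuNull p T k := by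
      refine h k hk (le_refl k) (fun σ τ hσ hτ x hx => ?_) hQk
      rw [hτ x hx, hσ x hx, hτ x hx]
    refine ⟨hself, ?_⟩
    rintro ℓ M N ⟨hℓ, hℓp, hkM, hN, hQN, hpN, hu⟩
    obtain ⟨C, hC⟩ := (muNull_iff hT).1 (h N hu.1 (le_trans hkM hu.2.1) hN hQN)
    exact (relMuNull_iff hT).2 ⟨C, fun n R hR =>
      relDeg_of_degI (sup_le_sup_right hu.2.1 _) (hC n R hR)⟩
  · rintro ⟨hmk, h⟩
    refine ab2_core p hp2 hT hI hI2 hm hk hQ hmk fun ℓ M N hs => ?_
    exact relL_of_relI t_rel hp.out hs.1 (splitStep_iff.1 hs.2.2.2.2.2.2)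
      ((relMuNull_iff hT).1 (h ℓ M N hs))

theorem ab2_one (hQk : Q k)
    (hI3 : ∀ A : ValuationSubring Qb, (p : Qb) ∈ A.nonunits → inertia A ≤ I A) :
    MuNullAb p T k Q ↔
    MuNull p T k ∧ ∀ ℓ M N, IsAbStep p m k Q ℓ M N → OneSmall p T ℓ M N := by
  constructor
  · intro h
    obtain ⟨h1, h2⟩ := (ab2_rel p hp2 hT hI hI2 hm hk hQ hQk).1 h
    refine ⟨h1, fun ℓ M N hs => ?_⟩
    exact (oneSmall_iff hT).2 (oneLayer_of_relI Pool.Agent.Run7.h232.UM.t_Q4 hp.out hp2
      (hs.2.2.2.2.2.2.1) ((relMuNull_iff hT).1 (h2 ℓ M N hs)))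
  · rintro ⟨hmk, h⟩
    refine ab2_core p hp2 hT hI hI2 hm hk hQ hmk fun ℓ M N hs => ?_
    exact relL_of_oneLayer t_rel s_layer Pool.Agent.Run7.h232.UM.t_Q4 p hp2 hI hI2 hI3 hs.1
      hs.2.1 (splitStep_iff.1 hs.2.2.2.2.2.2) ((oneSmall_iff hT).1 (h ℓ M N hs))

end

/-- The fields in which the archimedean places of `k` split completely. -/
theorem closed_arch (p : ℕ) (k : Fld) : Closed p (UnramifiedAtInfinity k) := by
  constructor
  · intro N N' hN hle ι c hc hb x hx
    exact hN ι c hc hb x (hle hx)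
  · rintro N A hN ⟨-, -, hAc, hAr⟩ ι c hc hb
    rw [fixes_iff]
    show c ∈ (N ⊔ A).fixingSubgroup
    rw [fixingSubgroup_sup]
    exact ⟨fixes_iff.1 (hN ι c hc hb), fixes_iff.1 (hAr ι c hc (fixes_bot c))⟩

end Pool.Agent.Run7.h759.UD
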