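import Pool.Agent.Run7.h759.UD.Defs

/-!
# Finite modules as coefficients
-/

set_option autoImplicit false

namespace Pool.Agent.Run7.h759.UD

/-- `A` is a finite group of exponent `p` on which the automorphisms over `L` act by `ρ`, through the automorphisms
of some number field. -/
structure IsCoef (p : ℕ) (L : Fld) (A : Type) [AddCommGroup A] (ρ : Gal(Qb/ℚ) → A → A) : Prop where
  fin : Finite A
  exp : ∀ a : A, p • a = 0
  one : ∀ a, ρ 1 a = a
  add : ∀ σ, Fixes σ L → ∀ a b, ρ σ (a + b) = ρ σ a + ρ σ b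
  mul : ∀ σ τ, Fixes σ L → Fixes τ L → ∀ a, ρ (σ * τ) a = ρ σ (ρ τ a)
  cont : ∃ F : Fld, IsNF F ∧ Sub L F ∧ ∀ σ, Fixes σ F → ∀ a, ρ σ a = a

/-- `f` is a continuous crossed homomorphism of the automorphisms over `F`, locally trivial for the condition `T`: for
each valuation ring `w` it is principal on the automorphisms over `F` with the property `T w`. -/
structure IsSha (T : ValuationSubring Qb → Gal(Qb/ℚ) → Prop) (F : Fld) (A : Type) [AddCommGroup A]
    (ρ : Gal(Qb/ℚ) → A → A) (f : Gal(Qb/ℚ) → A) : Prop where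
  coc : ∀ σ τ, Fixes σ F → Fixes τ F → f (σ * τ) = f σ + ρ σ (f τ)
  cont : ∃ F' : Fld, IsNF F' ∧ Sub F F' ∧ ∀ σ, Fixes σ F' → f σ = 0
  loc : ∀ w, ∃ a : A, ∀ σ, T w σ → Fixes σ F → f σ = ρ σ a - a

/-- There are at most `C` classes of locally trivial crossed homomorphisms over `F`: a finite set of pairwise
non-equivalent ones has at most `C` elements. -/
def ShaLe (T : ValuationSubring Qb → Gal(Qb/ℚ) → Prop) (F : Fld) (A : Type) [AddCommGroup A]
    (ρ : Gal(Qb/ℚ) → A → A) (C : ℕ) : Prop :=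
  ∀ s : Finset (Gal(Qb/ℚ) → A), (∀ f ∈ s, IsSha T F A ρ f) →
    (∀ f ∈ s, ∀ g ∈ s, (∃ a : A, ∀ σ, Fixes σ F → f σ - g σ = ρ σ a - a) → f = g) → s.card ≤ C

/-- The groups of classes of locally trivial crossed homomorphisms over the layers `L R` of the cyclotomic
`ℤ_p`-extension are bounded. -/
def ShaBounded (p : ℕ) (T : ValuationSubring Qb → Gal(Qb/ℚ) → Prop) (L : Fld) (A : Type)
    [AddCommGroup A] (ρ : Gal(Qb/ℚ) → A → A) : Prop :=
  ∃ C : ℕ, ∀ (n : ℕ) (R : Fld), Layer p n R → ShaLe T (join L R) A ρ C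

/-- `A` is a finite module of exponent `p` over `Gal(N / M)` without nonzero invariants. -/
def IsStepCoef (p : ℕ) (M N : Fld) (A : Type) [AddCommGroup A] (ρ : Gal(Qb/ℚ) → A → A) : Prop :=
  IsCoef p M A ρ ∧ (∀ σ, Fixes σ N → ∀ a, ρ σ a = a) ∧
    ∀ a, (∀ σ, Fixes σ M → ρ σ a = a) → a = 0

end Pool.Agent.Run7.h759.UD
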