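import Mathlib

/-!
# Definitions for the reduction of `μ = 0` to unramified steps
-/

set_option autoImplicit false

namespace Pool.Agent.Run7.h759.UD

open scoped Pointwise ComplexConjugate

/-- the algebraic numbers -/
abbrev Qb := AlgebraicClosure ℚ

/-- the subfields of `Qb` -/
abbrev Fld := IntermediateField ℚ Qb

/-- `σ` is trivial on `N`; in other words, `σ` is an automorphism over `N`. -/
def Fixes (σ : Gal(Qb/ℚ)) (N : Fld) : Prop := ∀ x ∈ N, σ x = x

/-- `N` is a number field. -/
def IsNF (N : Fld) : Prop := FiniteDimensional ℚ N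

/-- the degree of `N` over `ℚ` -/
noncomputable def deg (N : Fld) : ℕ := Module.finrank ℚ N

/-- `M` is contained in `N`. -/
def Sub (M N : Fld) : Prop := M ≤ N

/-- the composite field -/
noncomputable def join (M N : Fld) : Fld := M ⊔ N

/-- The automorphisms over `a` map `N` to itself, that is, `a N / a` is normal. -/
def GalOver (a N : Fld) : Prop := ∀ σ, Fixes σ a → ∀ x ∈ N, σ x ∈ N

/-- The automorphisms over `M` commute on `E`. -/
def CommuteOn (M E : Fld) : Prop :=
  ∀ σ τ, Fixes σ M → Fixes τ M → ∀ x ∈ E, σ (τ x) = τ (σ x)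

/-- The `p`-th powers of the automorphisms over `M` are trivial on `E`. -/
def ExponentOn (p : ℕ) (M E : Fld) : Prop := ∀ σ, Fixes σ M → Fixes (σ ^ p) E

/-- `σ` is in the inertia group of the valuation ring `A` of `Qb`. -/
def Inert (A : ValuationSubring Qb) (σ : Gal(Qb/ℚ)) : Prop :=
  σ • A = A ∧ ∀ x ∈ A, σ x - x ∈ A.nonunits

/-- The automorphisms over `M` with the property `T A` for some valuation ring `A` are trivial on `E`. For
`T = Inert` this says that `E / M` is unramified at all finite primes. -/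
def TrivialOn (T : ValuationSubring Qb → Gal(Qb/ℚ) → Prop) (M E : Fld) : Prop :=
  ∀ A σ, T A σ → Fixes σ M → Fixes σ E

/-- The automorphisms over `N` which commute on `E` with all automorphisms over `M` are trivial on `E`. -/
def NoCentral (M N E : Fld) : Prop :=
  ∀ σ, Fixes σ N → (∀ τ, Fixes τ M → ∀ x ∈ E, σ (τ x) = τ (σ x)) → Fixes σ E

/-- `R` is the `n`-th layer of the cyclotomic `ℤ_p`-extension of `ℚ` (for odd `p`): a field of degree
`p ^ n` which is contained in a field generated by roots of unity of `p`-power order. -/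
def Layer (p n : ℕ) (R : Fld) : Prop :=
  deg R = p ^ n ∧ ∃ K : ℕ, Sub R (IntermediateField.adjoin ℚ {z : Qb | z ^ p ^ K = 1})

/-- Every finite extension `E` of `M` which is Galois with an elementary abelian `p`-group, and to which `TrivialOn T`
applies, has degree at most `C`. -/
def AbsPart (p : ℕ) (T : ValuationSubring Qb → Gal(Qb/ℚ) → Prop) (M : Fld) (C : ℕ) : Prop :=
  ∀ E : Fld, Sub M E → IsNF E → GalOver M E → CommuteOn M E → ExponentOn p M E →
    TrivialOn T M E → deg E ≤ C * deg M

/-- The relative part of `N / M` has order at most `C`: every finite extension `E` of `N` which is Galois over `M`,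
with `Gal(E / N)` an elementary abelian `p`-group, to which `TrivialOn T` applies, and such that no nontrivial
element of `Gal(E / N)` commutes with `Gal(E / M)`, has degree at most `C` over `N`. -/
def RelPart (p : ℕ) (T : ValuationSubring Qb → Gal(Qb/ℚ) → Prop) (M N : Fld) (C : ℕ) : Prop :=
  ∀ E : Fld, Sub N E → IsNF E → GalOver M E → CommuteOn N E → ExponentOn p N E →
    TrivialOn T N E → NoCentral M N E → deg E ≤ C * deg N

/-- `μ = 0` for `F` and the condition `T`: `AbsPart` is bounded in the layers `F R` of the cyclotomic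
`ℤ_p`-extension. -/
def MuNull (p : ℕ) (T : ValuationSubring Qb → Gal(Qb/ℚ) → Prop) (F : Fld) : Prop :=
  ∃ C : ℕ, ∀ (n : ℕ) (R : Fld), Layer p n R → AbsPart p T (join F R) C

/-- The relative form of `μ = 0` for `N / M`: the relative parts of the layers are bounded. -/
def RelMuNull (p : ℕ) (T : ValuationSubring Qb → Gal(Qb/ℚ) → Prop) (M N : Fld) : Prop :=
  ∃ C : ℕ, ∀ (n : ℕ) (R : Fld), Layer p n R → RelPart p T (join M R) (join N R) C

/-- The valuation ring `A` of `Qb` is above `m`, or it is ramified in `N / ℚ`. -/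
def Bad (m : ℕ) (N : Fld) (A : ValuationSubring Qb) : Prop :=
  (m : Qb) ∈ A.nonunits ∨ ∃ τ, Inert A τ ∧ ¬ Fixes τ N

/-- The primes above `m` and those which ramify in `N / ℚ` split completely in `N / M`. -/
def SplitIn (m : ℕ) (M N : Fld) : Prop :=
  ∀ A, Bad m N A → ∀ σ : Gal(Qb/ℚ), σ • A = A → Fixes σ M → Fixes σ N

/-- The complex conjugations over `M` are trivial on `N`. -/
def UnramifiedAtInfinity (M N : Fld) : Prop :=
  ∀ (ι : Qb →+* ℂ) (c : Gal(Qb/ℚ)), (∀ x, ι (c x) = conj (ι x)) → Fixes c M → Fixes c N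

/-- `N / M` is a Galois extension of number fields of degree `ℓ`, unramified at all places, and the primes
above `m` and the primes which ramify in `N / ℚ` split completely in `N / M`. -/
def SplitStep (ℓ m : ℕ) (M N : Fld) : Prop :=
  IsNF N ∧ Sub M N ∧ deg N = ℓ * deg M ∧ GalOver M N ∧ TrivialOn Inert M N ∧ SplitIn m M N ∧
    UnramifiedAtInfinity M N

/-- The order of `p` modulo `ℓ` is at least `f`. -/
def OrdGe (p ℓ f : ℕ) : Prop := ∀ i, 0 < i → i < f → ¬ ℓ ∣ p ^ i - 1

/-- Each automorphism `σ` has a power `σ ^ j`, `j` not divisible by `p ^ (n₀ + 1)`, which is trivial on `N`. This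
holds if `[N : ℚ] ≤ p ^ n₀`, and if `N` is Galois over `ℚ` and `p ^ (n₀ + 1)` does not divide `[N : ℚ]`. -/
def PowersTrivial (p n₀ : ℕ) (N : Fld) : Prop :=
  ∀ σ : Gal(Qb/ℚ), ∃ j : ℕ, ¬ p ^ (n₀ + 1) ∣ j ∧ Fixes (σ ^ j) N

/-- The relative part of one layer `N R / M R` is small: with `q₀ = [N R₀ : N]` and `q = [N R : N]`, its order is
less than `p ^ (f (q - q₀))`, where the order of `p` modulo `ℓ` is at least `f` and `R₀ ⊆ R` is a layer of degree
`p ^ n₀` such that `PowersTrivial p n₀ N`. -/
def OneSmall (p : ℕ) (T : ValuationSubring Qb → Gal(Qb/ℚ) → Prop) (ℓ : ℕ) (M N : Fld) : Prop :=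
  ∃ (n₀ n q₀ q f C : ℕ) (R₀ R : Fld), Layer p n₀ R₀ ∧ Layer p n R ∧ n₀ ≤ n ∧
    PowersTrivial p n₀ N ∧ deg (join N R₀) = q₀ * deg N ∧ deg (join N R) = q * deg N ∧
    OrdGe p ℓ f ∧ RelPart p T (join M R) (join N R) C ∧ C < p ^ (f * (q - q₀))

/-- The same without the layer `R₀`. -/
def OneSmall0 (p : ℕ) (T : ValuationSubring Qb → Gal(Qb/ℚ) → Prop) (ℓ : ℕ) (M N : Fld) : Prop :=
  ∃ (n q f C : ℕ) (R : Fld), Layer p n R ∧ deg (join N R) = q * deg N ∧
    OrdGe p ℓ f ∧ RelPart p T (join M R) (join N R) C ∧ C < p ^ (f * q)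

/-- A totally real abelian extension of `ℚ` of prime degree different from `p`. -/
def RealCyclic (p : ℕ) (A : Fld) : Prop :=
  IsNF A ∧ (∃ ℓ : ℕ, ℓ.Prime ∧ ℓ ≠ p ∧ deg A = ℓ) ∧ CommuteOn ⊥ A ∧ UnramifiedAtInfinity ⊥ A

/-- The class of fields is closed under subfields and under composites with totally real cyclic
extensions of `ℚ` of prime degree different from `p`. -/
def Closed (p : ℕ) (Q : Fld → Prop) : Prop :=
  (∀ N N' : Fld, Q N → Sub N' N → Q N') ∧ ∀ N A : Fld, Q N → RealCyclic p A → Q (join N A)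

/-- `a ⊆ k` are number fields, `k / a` is Galois, and `Q` is a closed class of fields which contains `k`. -/
def IsClass (p : ℕ) (a k : Fld) (Q : Fld → Prop) : Prop :=
  Sub a k ∧ IsNF k ∧ GalOver a k ∧ Q k ∧ Closed p Q

/-- `ℓ ≠ p` is prime, `k ⊆ M ⊆ N` are number fields, `N` is Galois over `a` and in the class `Q`, and `N / M`
is a Galois extension of degree `ℓ`, unramified at all places, in which the primes above `m` and the primes
which ramify in `N / ℚ` split completely. -/
def IsStep (p m : ℕ) (a k : Fld) (Q : Fld → Prop) (ℓ : ℕ) (M N : Fld) : Prop :=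
  ℓ.Prime ∧ ℓ ≠ p ∧ Sub k M ∧ GalOver a N ∧ Q N ∧ SplitStep ℓ m M N

/-- `μ = 0` for the number fields `N ⊇ k` in the class `Q` which are Galois over `a`. -/
def MuNullOn (p : ℕ) (T : ValuationSubring Qb → Gal(Qb/ℚ) → Prop) (a k : Fld) (Q : Fld → Prop) :
    Prop :=
  ∀ N : Fld, IsNF N → Sub k N → GalOver a N → Q N → MuNull p T N

/-- The condition of being unramified, and totally split above `p`. -/
def SplitAt (p : ℕ) (A : ValuationSubring Qb) (σ : Gal(Qb/ℚ)) : Prop :=
  σ • A = A ∧ ((p : Qb) ∈ A.nonunits ∨ ∀ x ∈ A, σ x - x ∈ A.nonunits)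

/-- The condition of being unramified outside `p`. -/
def InertOutside (p : ℕ) (A : ValuationSubring Qb) (σ : Gal(Qb/ℚ)) : Prop :=
  (p : Qb) ∉ A.nonunits ∧ Inert A σ

/-- All embeddings of `N` in `ℂ` are real: the complex conjugations of `Qb` are trivial on `N`. -/
def TotallyReal (N : Fld) : Prop := UnramifiedAtInfinity ⊥ N

/-- `ℓ ≠ p` is prime, `k ⊆ M ⊆ N` are number fields, `N / k` is abelian, the degree of `N` is prime to `p`, and
`N / M` is a Galois extension of degree `ℓ`, unramified at all places, in which the primes above `m` and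
the primes which ramify in `N / ℚ` split completely. -/
def IsAbelianStep (p m : ℕ) (k : Fld) (ℓ : ℕ) (M N : Fld) : Prop :=
  ℓ.Prime ∧ ℓ ≠ p ∧ Sub k M ∧ CommuteOn k N ∧ ¬ p ∣ deg N ∧ SplitStep ℓ m M N

/-- The relative part of one layer is small: its order is less than `p ^ (f (p ^ n - 1))`, where `p ^ n` is the
degree of the layer and `f` is at most the order of `p` modulo `ℓ`. -/
def SmallPart (p : ℕ) (T : ValuationSubring Qb → Gal(Qb/ℚ) → Prop) (ℓ : ℕ) (M N : Fld) : Prop :=
  ∃ (n f C : ℕ) (R : Fld), Layer p n R ∧ OrdGe p ℓ f ∧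
    RelPart p T (join M R) (join N R) C ∧ C < p ^ (f * (p ^ n - 1))

/-- `μ = 0` for all finite abelian extensions of `k`. -/
def MuNullAbelian (p : ℕ) (T : ValuationSubring Qb → Gal(Qb/ℚ) → Prop) (k : Fld) : Prop :=
  ∀ K : Fld, IsNF K → Sub k K → CommuteOn k K → MuNull p T K

end Pool.Agent.Run7.h759.UD
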