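import Pool.Agent.Run7.h759.UD.Coef
import Pool.Agent.Run7.h759.UD.Bridge

/-!
# Interface: finite modules as coefficients
-/

set_option autoImplicit false

namespace Pool.Agent.Run7.h759.UD

open Pool.Agent.Q60.MU Pool.Agent.W5h77.MB Pool.Agent.Run7.h759.UM
open scoped Pointwise

/-- **U1.** If `μ = 0` for all number fields then the groups of locally trivial classes with values in finite modules
are bounded.

PROOF. Let `F'` be the field from `IsCoef.cont` (`ρ σ = id` for `σ` over `F'`), `C` the bound for `F'` (`MuNull p T F'`, or `MuI p I F'` by `muNull_iff hT`).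
Let `R` be a layer, `F = join L R`, `G = F.fixingSubgroup`, `H = (join F' R).fixingSubgroup ≤ G` (`fixes_iff : Fixes σ N ↔ σ ∈ N.fixingSubgroup`), `s` as in `ShaLe`. The
restriction of `f ∈ s` to `H` is a homomorphism (`coc`, and `ρ σ = id` for `σ ∈ H`), and it vanishes on the `σ ∈ H` with `T w σ` (`loc`: `f σ = ρ σ a - a = 0`). Let
`W = {σ ∈ H | f σ = 0 for all f ∈ s}`: a subgroup of `H`, open and of finite index (it contains the fixing subgroup of the composite of `join F' R` and the
fields of `IsSha.cont` for `f ∈ s`; `s` is finite), and `gens p I H ⊆ W` (`p`-th powers: `p • a = 0`; commutators: `A` is commutative; `I w ⊓ H`: `hT`, `Describes T I`). By `RankLe p I H C` (`t_rel.1` translates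
`DegI` to `RankLe`, as in `Gen.lean`, `gen_core`), `W.relIndex H ≤ C`. `H.relIndex G ≤ n := F'.fixingSubgroup.relIndex L.fixingSubgroup` or `≤ F'.fixingSubgroup.index` (`relIndex_le_index`-like, as in `muI_down`). So
`W.relIndex G ≤ C n`, and `f ∈ s` is determined on `G` by its values on representatives of the left cosets of `W` in `G`: `f (g w) = f g + ρ g (f w) = f g`. If `f, g ∈ s` agree on `G` then `f = g` (hypothesis with
`a = 0`). So the map `s → (G ⧸ W.subgroupOf G → A)` is injective and `s.card ≤ |A| ^ (C n)`. -/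
def S_coef : Prop := ∀ (p : ℕ) [Fact p.Prime] (T : ValuationSubring Qb → Gal(Qb/ℚ) → Prop)
  (I : ValuationSubring Qb → Subgroup Gal(Qb/ℚ)), Describes T I →
  (∀ F : Fld, IsNF F → MuNull p T F) →
  ∀ (L : Fld), IsNF L → ∀ (A : Type) [AddCommGroup A] (ρ : Gal(Qb/ℚ) → A → A), IsCoef p L A ρ →
    ShaBounded p T L A ρ

/-- **U2.** Trivial coefficients `ℤ / p`.

PROOF. Let `C` be the bound for `A = ZMod p`, `ρ σ a = a`. Let `R` be a layer, `F' = join F R`, `E` as in `AbsPart` for `F'`. `G = F'.fixingSubgroup`, `W = E.fixingSubgroup ≤ G`, normal in `G` (`GalOver F' E`), `V = G ⧸ W.subgroupOf G` is finite, commutative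
(`CommuteOn`) and of exponent `p` (`ExponentOn`). `Nat.card V = deg E / deg F'` (`deg E = W.relIndex G * deg F'`, from `finrank_eq_fixingSubgroup_index` and `relIndex_mul_index`). Each homomorphism `χ : V → Multiplicative (ZMod p)` gives
`f σ = χ (σ W)` for `σ ∈ G`, `f σ = 0` for `σ ∉ G`; `IsSha T F' (ZMod p) ρ f`: `coc` and `cont` (field `E`) are clear, `loc` with `a = 0`: if `T w σ`, `σ ∈ G` then `σ ∈ W` (`TrivialOn T F' E`). They are distinct and pairwise non-equivalent (`ρ σ a - a = 0`, and
`f`, `g` vanish outside of `G`). There are `|V|` such homomorphisms (`V` is a vector space over `ZMod p`, `Module.Dual` has the same dimension: `Module.card_eq_pow_finrank`, `Subspace.dual_finrank_eq`). So `|V| ≤ C`. -/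
def S_triv : Prop := ∀ (p : ℕ) [Fact p.Prime] (T : ValuationSubring Qb → Gal(Qb/ℚ) → Prop)
  (F : Fld), IsNF F → ShaBounded p T F (ZMod p) (fun _ a => a) → MuNull p T F

end Pool.Agent.Run7.h759.UD
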