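import Pool.Agent.Run7.h759.UD.Ab2
import Pool.Agent.Run7.h759.UD.IfaceC

/-!
# The theorems for the split form
-/

set_option autoImplicit false

namespace Pool.Agent.Run7.h759.UD

open Run7.h947.IW (splitAbove split_conj)

theorem coef_triv (p : ℕ) [Fact p.Prime] {F : Fld} (hF : IsNF F) :
    IsCoef p F (ZMod p) (fun _ a => a) where
  fin := inferInstance
  exp a := by rw [nsmul_eq_mul, ZMod.natCast_self, zero_mul]
  one _ := rfl
  add _ _ _ _ := rfl
  mul _ _ _ _ _ := rfl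
  cont := ⟨F, hF, le_refl F, fun _ _ _ => rfl⟩

theorem all_tfae' (hU1 : S_coef) (hU2 : S_triv) (p : ℕ) [Fact p.Prime] (hp2 : p ≠ 2) (m : ℕ)
    (hm : m ≠ 0) :
    [∀ L : Fld, IsNF L → ∀ (A : Type) [AddCommGroup A] (ρ : Gal(Qb/ℚ) → A → A), IsCoef p L A ρ →
        ShaBounded p (SplitAt p) L A ρ,
      ∀ L : Fld, IsNF L → MuNull p (SplitAt p) L,
      ∀ ℓ M N, IsStep p m ⊥ ⊥ (fun _ => True) ℓ M N → RelMuNull p (SplitAt p) M N,
      ∀ ℓ M N, IsStep p m ⊥ ⊥ (fun _ => True) ℓ M N → OneSmall p (SplitAt p) ℓ M N].TFAE := by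
  have hbot : IsNF ⊥ := by
    show FiniteDimensional ℚ (⊥ : IntermediateField ℚ Qb)
    infer_instance
  have hcl : IsClass p ⊥ ⊥ (fun _ => True) :=
    ⟨le_refl _, hbot, fun σ _ x hx => by rwa [fixes_bot σ x hx], trivial, fun _ _ _ _ => trivial,
      fun _ _ _ _ => trivial⟩
  have hall := all_iff p (describes_split p) hbot
  have h1 := class_rel p hp2 (describes_split p) (split_conj p) (split_le2 p) hm hcl
  have h2 := class_one p hp2 (describes_split p) (split_conj p) (split_le2 p) hm hcl (split_le3 p)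
  tfae_have 1 → 2 := fun h L hL => hU2 p _ L hL (h L hL (ZMod p) _ (coef_triv p hL))
  tfae_have 2 → 1 := fun h L hL A _ ρ hρ => hU1 p _ _ (describes_split p) h L hL A ρ hρ
  tfae_have 2 ↔ 3 := hall.trans (h1.trans ⟨fun h => h.2, fun h => ⟨null_bot_split p, h⟩⟩)
  tfae_have 2 ↔ 4 := hall.trans (h2.trans ⟨fun h => h.2, fun h => ⟨null_bot_split p, h⟩⟩)
  tfae_finish

theorem arch_split (p : ℕ) [Fact p.Prime] (hp2 : p ≠ 2) (m : ℕ) (hm : m ≠ 0) {K : Fld}
    (hK : IsNF K) :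
    (MuNullAb p (SplitAt p) K (UnramifiedAtInfinity K) ↔ MuNull p (SplitAt p) K ∧
      ∀ ℓ M N, IsAbStep p m K (UnramifiedAtInfinity K) ℓ M N → RelMuNull p (SplitAt p) M N) ∧
    (MuNullAb p (SplitAt p) K (UnramifiedAtInfinity K) ↔ MuNull p (SplitAt p) K ∧
      ∀ ℓ M N, IsAbStep p m K (UnramifiedAtInfinity K) ℓ M N → OneSmall p (SplitAt p) ℓ M N) :=
  ⟨ab2_rel p hp2 (describes_split p) (split_conj p) (split_le2 p) hm hK (closed_arch p K)
      (fun _ _ _ h => h),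
    ab2_one p hp2 (describes_split p) (split_conj p) (split_le2 p) hm hK (closed_arch p K)
      (fun _ _ _ h => h) (split_le3 p)⟩

end Pool.Agent.Run7.h759.UD
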