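import Pool.Agent.Run7.h759.UD.Sum
import Pool.Agent.Run7.h929.UD.U1
import Pool.Agent.Run7.h593.UD.U2

/-!
# The theorems for the split form, with all ingredients
-/

set_option autoImplicit false

namespace Pool.Agent.Run7.h759.UD

theorem all_tfae (p : ℕ) [Fact p.Prime] (hp2 : p ≠ 2) (m : ℕ) (hm : m ≠ 0) :
    [∀ L : Fld, IsNF L → ∀ (A : Type) [AddCommGroup A] (ρ : Gal(Qb/ℚ) → A → A), IsCoef p L A ρ →
        ShaBounded p (SplitAt p) L A ρ,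
      ∀ L : Fld, IsNF L → MuNull p (SplitAt p) L,
      ∀ ℓ M N, IsStep p m ⊥ ⊥ (fun _ => True) ℓ M N → RelMuNull p (SplitAt p) M N,
      ∀ ℓ M N, IsStep p m ⊥ ⊥ (fun _ => True) ℓ M N → OneSmall p (SplitAt p) ℓ M N].TFAE :=
  all_tfae' Pool.Agent.Run7.h929.UD.t_U1 Pool.Agent.Run7.h593.UD.t_U2 p hp2 m hm

end Pool.Agent.Run7.h759.UD
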