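import Pool.Agent.Run7.h759.UD.Sum2
import Pool.Agent.Run7.h759.UD.IfaceD

/-!
# Coefficients in everywhere unramified characters of prime order
-/

set_option autoImplicit false

namespace Pool.Agent.Run7.h759.UD

open Run7.h947.IW (splitAbove split_conj)

/-- The steps for a multiple of `m` are steps for `m`. -/
theorem isStep_mul {p m c : ℕ} {a k : Fld} {Q : Fld → Prop} {ℓ : ℕ} {M N : Fld}
    (h : IsStep p (c * m) a k Q ℓ M N) : IsStep p m a k Q ℓ M N := by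
  obtain ⟨h1, h2, h3, h4, h5, h6, h7, h8, h9, h10, h11, h12⟩ := h
  refine ⟨h1, h2, h3, h4, h5, h6, h7, h8, h9, h10, ?_, h12⟩
  rintro A (hA | hA) σ hσ hM
  · refine h11 A (Or.inl ?_) σ hσ hM
    push_cast
    rw [mul_comm]
    exact Pool.Agent.Q60.MU.mul_nonunits hA (natCast_mem A c)
  · exact h11 A (Or.inr hA) σ hσ hM

/-- For the steps which are split above `p` the local conditions are trivial. -/
theorem split_loc {p m ℓ : ℕ} {M N : Fld} (h : SplitStep ℓ (p * m) M N) :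
    ∀ w σ, SplitAt p w σ → Fixes σ M → Fixes σ N := by
  obtain ⟨-, -, -, -, h5, h6, -⟩ := h
  rintro w σ ⟨h1, h2 | h2⟩ hM
  · refine h6 w (Or.inl ?_) σ h1 hM
    push_cast
    exact Pool.Agent.Q60.MU.mul_nonunits h2 (natCast_mem w m)
  · exact h5 w σ ⟨h1, h2⟩ hM

theorem all_tfae3 (hU3 : S_step) (p : ℕ) [hp : Fact p.Prime] (hp2 : p ≠ 2) (m : ℕ) (hm : m ≠ 0) :
    [∀ L : Fld, IsNF L → ∀ (A : Type) [AddCommGroup A] (ρ : Gal(Qb/ℚ) → A → A), IsCoef p L A ρ →
        ShaBounded p (SplitAt p) L A ρ,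
      ∀ ℓ M N, IsStep p m ⊥ ⊥ (fun _ => True) ℓ M N → ∀ (A : Type) [AddCommGroup A]
        (ρ : Gal(Qb/ℚ) → A → A), IsStepCoef p M N A ρ → ShaBounded p (SplitAt p) M A ρ,
      ∀ L : Fld, IsNF L → MuNull p (SplitAt p) L,
      ∀ ℓ M N, IsStep p m ⊥ ⊥ (fun _ => True) ℓ M N → RelMuNull p (SplitAt p) M N,
      ∀ ℓ M N, IsStep p m ⊥ ⊥ (fun _ => True) ℓ M N → OneSmall p (SplitAt p) ℓ M N].TFAE := by
  have base := all_tfae p hp2 m hm
  have hbot : IsNF ⊥ := by
    show FiniteDimensional ℚ (⊥ : IntermediateField ℚ Qb)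
    infer_instance
  have hcl : IsClass p ⊥ ⊥ (fun _ => True) :=
    ⟨le_refl _, hbot, fun σ _ x hx => by rwa [fixes_bot σ x hx], trivial, fun _ _ _ _ => trivial,
      fun _ _ _ _ => trivial⟩
  have hall := all_iff p (describes_split p) hbot
  have hpm : p * m ≠ 0 := mul_ne_zero hp.out.ne_zero hm
  have h1 := class_rel p hp2 (describes_split p) (split_conj p) (split_le2 p) hpm hcl
  tfae_have 1 → 2 := by
    intro h ℓ M N hs A _ ρ hρ
    have hN : FiniteDimensional ℚ N := hs.2.2.2.2.2.1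
    have hM : IsNF M := by
      have hMN : M ≤ N := hs.2.2.2.2.2.2.1
      exact Submodule.finiteDimensional_of_le (S₁ := Subalgebra.toSubmodule M.toSubalgebra)
        (S₂ := Subalgebra.toSubmodule N.toSubalgebra) hMN
    exact h M hM A ρ hρ.1
  tfae_have 2 → 3 := by
    intro h
    refine (hall.trans h1).2 ⟨null_bot_split p, fun ℓ M N hs => ?_⟩
    obtain ⟨hℓ, hℓp, -, -, -, hu⟩ := id hs
    exact hU3 p _ ℓ M N hℓ hℓp hu.1 hu.2.1 hu.2.2.1 hu.2.2.2.1 (split_loc hu)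
      (h ℓ M N (isStep_mul hs))
  tfae_have 3 ↔ 1 := (base.out 0 1).symm
  tfae_have 3 ↔ 4 := base.out 1 2
  tfae_have 3 ↔ 5 := base.out 1 3
  tfae_finish

end Pool.Agent.Run7.h759.UD
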